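import Mathlib

/-!
# Integer average orders of finite groups

If the average order `o(G)` of the elements of a finite group `G` is an integer, then
`o(G) ≡ 1 (mod 4)`. More generally, if `d` divides `p - 1` for every prime divisor `p` of `|G|`,
then `o(G) ≡ 1 (mod d ^ 2)`.
-/

open Finset

namespace Pool.Agent.Results.MP_3da00f_al.OneModFour

/-- The average order of the elements of a finite group. -/
noncomputable def avgOrder (G : Type*) [Group G] [Fintype G] : ℚ :=
  (∑ x : G, (orderOf x : ℚ)) / Fintype.card G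

variable {G : Type*} [Group G] [Fintype G]

/-- The number of the generators of a cyclic subgroup. -/
theorem card_generators (g : G) [DecidablePred fun x : G =>
    Subgroup.zpowers x = Subgroup.zpowers g] :
    #{x : G | Subgroup.zpowers x = Subgroup.zpowers g} = (orderOf g).totient := by
  classical
  have h1 : #{y : Subgroup.zpowers g | orderOf y = orderOf g} = (orderOf g).totient := by
    apply IsCyclic.card_orderOf_eq_totient
    rw [Fintype.card_zpowers]
  rw [← h1]
  symm
  refine Finset.card_bij (fun y _ => (y : G)) ?_ ?_ ?_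
  · intro y hy
    rw [Finset.mem_filter] at hy ⊢
    refine ⟨Finset.mem_univ _, ?_⟩
    have h2 : Subgroup.zpowers (y : G) ≤ Subgroup.zpowers g := by
      rw [Subgroup.zpowers_le]
      exact y.2
    apply Subgroup.eq_of_le_of_card_ge h2
    rw [Nat.card_zpowers, Nat.card_zpowers, Subgroup.orderOf_coe, hy.2]
  · intro y _ z _ h
    exact Subtype.ext h
  · intro x hx
    rw [Finset.mem_filter] at hx
    have hxg : x ∈ Subgroup.zpowers g := by
      rw [← hx.2]
      exact Subgroup.mem_zpowers x
    refine ⟨⟨x, hxg⟩, ?_, rfl⟩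
    rw [Finset.mem_filter]
    refine ⟨Finset.mem_univ _, ?_⟩
    rw [← Subgroup.orderOf_coe]
    show orderOf x = orderOf g
    rw [← Nat.card_zpowers x, hx.2, Nat.card_zpowers]

/-- The sum over the elements as a sum over the cyclic subgroups. -/
theorem sum_eq (f : ℕ → ℤ) [DecidableEq (Subgroup G)] :
    ∑ x : G, f (orderOf x) = ∑ C ∈ (univ : Finset G).image Subgroup.zpowers,
      ((Nat.card C).totient : ℤ) * f (Nat.card C) := by
  classical
  rw [← Finset.sum_fiberwise_of_maps_to (s := univ) (t := univ.image Subgroup.zpowers)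
    (g := fun x : G => Subgroup.zpowers x) fun x _ => Finset.mem_image_of_mem _ (mem_univ x)]
  refine Finset.sum_congr rfl fun C hC => ?_
  obtain ⟨g, _, rfl⟩ := Finset.mem_image.1 hC
  rw [Finset.sum_congr rfl (g := fun _ => f (Nat.card (Subgroup.zpowers g)))]
  · rw [Finset.sum_const, card_generators, Nat.card_zpowers, nsmul_eq_mul]
  · intro x hx
    rw [Finset.mem_filter] at hx
    rw [← hx.2, Nat.card_zpowers]

/-- A natural number, all the prime divisors of which are `1` mod `d`, is `1` mod `d`. -/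
theorem modEq_one (d : ℕ) : ∀ c : ℕ, c ≠ 0 → (∀ p : ℕ, p.Prime → p ∣ c → p ≡ 1 [MOD d]) →
    c ≡ 1 [MOD d] := by
  intro c
  induction c using Nat.recOnMul with
  | zero => intro h; exact absurd rfl h
  | one => intro _ _; rfl
  | prime p hp => intro _ h; exact h p hp dvd_rfl
  | mul a b iha ihb =>
    intro h0 h
    have h1 := iha (left_ne_zero_of_mul h0) fun p hp hpa => h p hp (hpa.mul_right b)
    have h2 := ihb (right_ne_zero_of_mul h0) fun p hp hpb => h p hp (hpb.mul_left a)
    simpa using h1.mul h2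

/-- The main congruence. -/
theorem dvd_sum (d : ℕ) (h : ∀ p : ℕ, p.Prime → p ∣ Fintype.card G → p ≡ 1 [MOD d]) :
    ((d : ℤ) ^ 2) ∣ ∑ x : G, ((orderOf x : ℤ) - 1) := by
  classical
  rw [sum_eq (G := G) fun c => (c : ℤ) - 1]
  refine Finset.dvd_sum fun C _ => ?_
  have hC0 : Nat.card C ≠ 0 := Nat.card_pos.ne'
  have hdvd : Nat.card C ∣ Fintype.card G := by
    rw [← Nat.card_eq_fintype_card]
    exact Subgroup.card_subgroup_dvd_card C
  have h1 : ∀ p : ℕ, p.Prime → p ∣ Nat.card C → p ≡ 1 [MOD d] :=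
    fun p hp hpC => h p hp (hpC.trans hdvd)
  have h2 : (d : ℤ) ∣ (Nat.card C : ℤ) - 1 := by
    have h3 := modEq_one d _ hC0 h1
    have h4 := (Nat.modEq_iff_dvd.1 h3.symm)
    simpa using h4
  rcases eq_or_ne (Nat.card C) 1 with hc | hc
  · rw [hc]
    simp
  · obtain ⟨p, hp, hpC⟩ := Nat.exists_prime_and_dvd hc
    have h5 : (d : ℤ) ∣ ((Nat.card C).totient : ℤ) := by
      have h6 : p - 1 ∣ (Nat.card C).totient := by
        rw [← Nat.totient_prime hp]
        exact Nat.totient_dvd_of_dvd hpC
      have h7 : (d : ℤ) ∣ (p : ℤ) - 1 := by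
        have h4 := (Nat.modEq_iff_dvd.1 (h1 p hp hpC).symm)
        simpa using h4
      have h8 : ((p - 1 : ℕ) : ℤ) = (p : ℤ) - 1 := by
        rw [Nat.cast_sub hp.one_le]
        simp
      rw [← h8] at h7
      exact h7.trans (Int.natCast_dvd_natCast.2 h6)
    rw [pow_two]
    exact mul_dvd_mul h5 h2

/-- An integral average gives an equation between integers. -/
theorem eq_of_avg {n : ℤ} (hn : avgOrder G = n) :
    ∑ x : G, (orderOf x : ℤ) = n * Fintype.card G := by
  have h0 : (Fintype.card G : ℚ) ≠ 0 := Nat.cast_ne_zero.2 Fintype.card_ne_zero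
  unfold avgOrder at hn
  rw [div_eq_iff h0] at hn
  exact_mod_cast hn

/-- The order of the group is odd if the average is an integer. -/
theorem odd_card {n : ℤ} (hn : avgOrder G = n) : ¬ 2 ∣ Fintype.card G := by
  classical
  intro h2
  have h1 := eq_of_avg hn
  -- the sum of the orders is odd: `x ↦ x⁻¹`
  have h3 : (∑ x : G, ((orderOf x : ZMod 2))) = 1 := by
    rw [← Finset.add_sum_erase univ _ (Finset.mem_univ (1 : G))]
    have h4 : ∑ x ∈ univ.erase (1 : G), ((orderOf x : ZMod 2)) = 0 := by
      refine Finset.sum_involution (fun x _ => x⁻¹) ?_ ?_ ?_ ?_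
      · intro x _
        rw [orderOf_inv]
        exact CharTwo.add_self_eq_zero _
      · intro x hx hne hinv
        have h5 : x ^ 2 = 1 := by
          rw [pow_two]
          nth_rw 1 [← hinv]
          exact inv_mul_cancel x
        have h6 : x ≠ 1 := (Finset.mem_erase.1 hx).1
        have h7 : orderOf x = 2 := orderOf_eq_prime h5 h6
        rw [h7] at hne
        exact hne (by decide)
      · intro x hx
        rw [Finset.mem_erase] at hx ⊢
        exact ⟨inv_ne_one.2 hx.1, mem_univ _⟩
      · intro x _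
        exact inv_inv x
    rw [h4, orderOf_one, add_zero, Nat.cast_one]
  have h8 : ((∑ x : G, (orderOf x : ℤ) : ℤ) : ZMod 2) = ((n * Fintype.card G : ℤ) : ZMod 2) := by
    rw [h1]
  push_cast at h8
  rw [h3, (ZMod.natCast_eq_zero_iff _ _).2 h2, mul_zero] at h8
  exact one_ne_zero h8

theorem modEq_of_avg {n : ℤ} (hn : avgOrder G = n) (d : ℕ)
    (h : ∀ p : ℕ, p.Prime → p ∣ Fintype.card G → p ≡ 1 [MOD d]) :
    n ≡ 1 [ZMOD (d : ℤ) ^ 2] := by
  have h1 := dvd_sum (G := G) d h
  rw [Finset.sum_sub_distrib, eq_of_avg hn] at h1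
  simp only [Finset.sum_const, Finset.card_univ, nsmul_eq_mul, mul_one] at h1
  have h2 : n * (Fintype.card G : ℤ) - Fintype.card G = (Fintype.card G : ℤ) * (n - 1) := by ring
  rw [h2] at h1
  have h3 : Fintype.card G ≡ 1 [MOD d] := modEq_one d _ Fintype.card_ne_zero h
  have h4 : IsCoprime ((d : ℤ) ^ 2) (Fintype.card G : ℤ) := by
    apply IsCoprime.pow_left
    obtain ⟨k, hk⟩ : (d : ℤ) ∣ (Fintype.card G : ℤ) - 1 := by
      have h5 := Nat.modEq_iff_dvd.1 h3.symm
      simpa using h5
    refine ⟨-k, 1, ?_⟩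
    have : (Fintype.card G : ℤ) = 1 + d * k := by rw [← hk]; ring
    rw [this]
    ring
  have h5 := h4.dvd_of_dvd_mul_left h1
  exact (Int.modEq_iff_dvd.2 h5).symm

/-- If the average order `o(G)` of the elements of a finite group is an integer `n`, then
`n ≡ 1 (mod 4)`; and `n ≡ 1 (mod d ^ 2)` for every `d` such that all the prime divisors of `|G|`
are `≡ 1 (mod d)`. -/
theorem result (G : Type*) [Group G] [Fintype G] (n : ℤ) (hn : avgOrder G = n) :
    n ≡ 1 [ZMOD 4] ∧
    ∀ d : ℕ, (∀ p : ℕ, p.Prime → p ∣ Fintype.card G → p ≡ 1 [MOD d]) →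
      n ≡ 1 [ZMOD (d : ℤ) ^ 2] := by
  refine ⟨?_, fun d h => modEq_of_avg hn d h⟩
  have h1 := modEq_of_avg hn 2 (by
    intro p hp hpG
    rcases hp.eq_two_or_odd' with h | h
    · rw [h] at hpG
      exact absurd hpG (odd_card hn)
    · obtain ⟨k, hk⟩ := h
      rw [hk, Nat.ModEq]
      omega)
  norm_num at h1
  exact h1

end Pool.Agent.Results.MP_3da00f_al.OneModFour
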