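import Pool.Agent.AvgOrd.TwoPrimes
import Pool.Agent.AvgOrd.Witness

/-!
# Integer average orders of finite groups: the least value

If the average order `o(G)` of a finite group is an integer `n ≠ 1` and `p < q` are the two
smallest prime divisors of `|G|` (there are at least two), then
`n ≥ o(C_{pq}) = (p - 1 + 1/p) (q - 1 + 1/q)`. The least integer greater than `1` that is an
average order is `13`: the integers `2, ..., 12` are not average orders, `n = 13` needs `p = 3` and
`q = 5`, and `13` is the average order of the group `(C_5 ^ 2 ⋊ C_3) × C_3 ^ 2 × C_5` of order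
`3375`. The lower bound is the file `TwoPrimes` of helper19.
-/

open Finset Pool.Agent.AvgOrd

namespace Pool.Agent.Results.MP_3da00f_al.LeastValue

/-- The average order of the elements of a finite group. -/
noncomputable def avgOrder (G : Type*) [Group G] [Fintype G] : ℚ :=
  (∑ x : G, (orderOf x : ℚ)) / Fintype.card G

theorem card_filter_one {G : Type*} [Group G] [Fintype G]
    (inst : DecidablePred fun x : G => x = 1) :
    #(@Finset.filter G (fun x => x = 1) inst univ) = 1 := by
  rw [Finset.card_eq_one]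
  exact ⟨1, by ext x; simp⟩

/-- The group `(C_5 ^ 2 ⋊ C_3) × C_3 ^ 2 × C_5`. -/
abbrev W : Type := K × Multiplicative (ZMod 3 × ZMod 3) × Multiplicative (ZMod 5)

theorem card_pow_prod {A B : Type*} [Group A] [Group B] [Fintype A] [Fintype B] [DecidableEq A]
    [DecidableEq B] (n : ℕ) :
    #{x : A × B | x ^ n = 1} = #{a : A | a ^ n = 1} * #{b : B | b ^ n = 1} := by
  rw [← Finset.card_product]
  congr 1
  ext ⟨a, b⟩
  simp [Prod.ext_iff]

theorem card_W : Fintype.card W = 3375 := by
  rw [Fintype.card_prod, Fintype.card_prod, K.card]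
  have h1 : Fintype.card (Multiplicative (ZMod 3 × ZMod 3)) = 9 := by decide +kernel
  have h2 : Fintype.card (Multiplicative (ZMod 5)) = 5 := by decide +kernel
  rw [h1, h2]

theorem card3_W : #{x : W | x ^ 3 = 1} = 459 := by
  rw [card_pow_prod, card_pow_prod, K.card3]
  have h1 : #{x : Multiplicative (ZMod 3 × ZMod 3) | x ^ 3 = 1} = 9 := by decide +kernel
  have h2 : #{x : Multiplicative (ZMod 5) | x ^ 3 = 1} = 1 := by decide +kernel
  rw [h1, h2]

theorem card5_W : #{x : W | x ^ 5 = 1} = 125 := by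
  rw [card_pow_prod, card_pow_prod, K.card5]
  have h1 : #{x : Multiplicative (ZMod 3 × ZMod 3) | x ^ 5 = 1} = 1 := by decide +kernel
  have h2 : #{x : Multiplicative (ZMod 5) | x ^ 5 = 1} = 5 := by decide +kernel
  rw [h1, h2]

theorem pow15_W (x : W) : x ^ 15 = 1 := by
  obtain ⟨k, a, b⟩ := x
  have h1 : ∀ x : Multiplicative (ZMod 3 × ZMod 3), x ^ 15 = 1 := by decide +kernel
  have h2 : ∀ x : Multiplicative (ZMod 5), x ^ 15 = 1 := by decide +kernel
  rw [Prod.pow_mk, Prod.pow_mk, K.pow15, h1, h2]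
  rfl

theorem orderOf_W (x : W) : (orderOf x : ℤ) = 15 - 12 * (if x ^ 3 = 1 then 1 else 0) -
    10 * (if x ^ 5 = 1 then 1 else 0) + 8 * (if x = 1 then 1 else 0) := by
  have h1 : orderOf x ∣ 15 := orderOf_dvd_of_pow_eq_one (pow15_W x)
  have h2 : orderOf x ∈ Nat.divisors 15 := Nat.mem_divisors.2 ⟨h1, by norm_num⟩
  have h3 : Nat.divisors 15 = {1, 3, 5, 15} := by decide +kernel
  have e1 : x = 1 ↔ orderOf x = 1 := orderOf_eq_one_iff.symm
  have e3 : x ^ 3 = 1 ↔ orderOf x ∣ 3 := orderOf_dvd_iff_pow_eq_one.symm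
  have e5 : x ^ 5 = 1 ↔ orderOf x ∣ 5 := orderOf_dvd_iff_pow_eq_one.symm
  simp only [e1, e3, e5]
  rw [h3] at h2
  simp only [Finset.mem_insert, Finset.mem_singleton] at h2
  rcases h2 with h | h | h | h <;> rw [h] <;> norm_num

theorem avg_W : avgOrder W = 13 := by
  have h1 : ∑ x : W, (orderOf x : ℤ) = 43875 := by
    rw [Finset.sum_congr rfl fun x _ => orderOf_W x]
    rw [Finset.sum_add_distrib, Finset.sum_sub_distrib, Finset.sum_sub_distrib,
      ← Finset.mul_sum, ← Finset.mul_sum, ← Finset.mul_sum, Finset.sum_boole, Finset.sum_boole,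
      Finset.sum_boole, card3_W, card5_W, card_filter_one, Finset.sum_const, Finset.card_univ,
      card_W]
    norm_num
  unfold avgOrder
  rw [card_W]
  have h2 : (∑ x : W, (orderOf x : ℚ)) = 43875 := by exact_mod_cast h1
  rw [h2]
  norm_num

/-- **The least integer greater than `1` that is an average order is `13`**, and the lower bound
by the two smallest prime divisors. -/
theorem result :
    (∀ (G : Type*) [Group G] [Fintype G] (n : ℤ), avgOrder G = n → n ≠ 1 →
      13 ≤ n ∧ ∃ p q : ℕ, p.Prime ∧ q.Prime ∧ p < q ∧ p ∣ Fintype.card G ∧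
        q ∣ Fintype.card G ∧ (∀ r : ℕ, r.Prime → r ∣ Fintype.card G → r = p ∨ q ≤ r) ∧
        ((p : ℚ) - 1 + 1 / p) * ((q : ℚ) - 1 + 1 / q) ≤ n ∧ (n = 13 → p = 3 ∧ q = 5)) ∧
    (∃ (G : Type) (_ : Group G) (_ : Fintype G), Fintype.card G = 3375 ∧ avgOrder G = 13) :=
  ⟨fun G _ _ n hn => (TwoPrimes.bound G n hn).2, W, inferInstance, inferInstance, card_W, avg_W⟩

end Pool.Agent.Results.MP_3da00f_al.LeastValue
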