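import Pool.Agent.LibAO61.Main

/-!
# Elements of average order
-/

set_option autoImplicit false

open Finset Pool.Agent.LibAO61

namespace Pool.Agent.Results.MP_3da00f_al.SixteenPrimes

/-- Let `G` be a nontrivial finite group which has a quotient `G ⧸ K` of the same exponent such
that, for every `m`, the solutions of `y ^ m = 1` in `G ⧸ K` are closed under multiplication (for
instance an abelian group, with `K = ⊥`, or a group with the same exponent as its abelianization).
If some `x : G` has average order, then the order of `G` is odd, has at least `16` distinct prime
divisors, is at least `3 * 5 * 7 * ... * 59`, has at least `1243` distinct prime divisors if `3`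
does not divide it, and, `q` being its smallest prime divisor, the product of `1 + 1 / p` over its
prime divisors `p` is at least `q`. -/
theorem result (G : Type*) [Group G] [Fintype G] [Nontrivial G] (K : Subgroup G) [K.Normal]
    (hK : PowerClosed (G ⧸ K)) (hexp : Monoid.exponent (G ⧸ K) = Monoid.exponent G)
    (x : G) (hx : (orderOf x : ℚ) = avgOrder G) :
    Odd (Fintype.card G) ∧ 16 ≤ (Fintype.card G).primeFactors.card ∧
      961380175077106319535 ≤ Fintype.card G ∧
      (¬ 3 ∣ Fintype.card G → 1243 ≤ (Fintype.card G).primeFactors.card) ∧
      (Fintype.card G).minFac * ∏ p ∈ (Fintype.card G).primeFactors, p ≤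
        ∏ p ∈ (Fintype.card G).primeFactors, (p + 1) :=
  final K hK hexp x hx

end Pool.Agent.Results.MP_3da00f_al.SixteenPrimes
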