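import Mathlib

/-!
# Integer average orders of finite groups and centralizers of Sylow subgroups

If the average order `o(G)` of the elements of a finite group `G` is an integer, `p` is a prime
divisor of `|G|` and `P` is a Sylow `p`-subgroup, then the elements of `C_G(P)` of order prime to
`p` form a subgroup `O`, and `p` divides the sum of the orders of the elements of `O`.
-/

open Finset

namespace Pool.Agent.Results.MP_3da00f_al.SylowCentralizer

/-- `ψ(G)`: the sum of the orders of the elements of a finite group. -/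
noncomputable def psi (G : Type*) [Group G] : ℕ := ∑ᶠ x : G, orderOf x

/-- `o(G)`: the average order of the elements of a finite group. -/
noncomputable def avgOrder (G : Type*) [Group G] : ℚ := (psi G : ℚ) / (Nat.card G : ℚ)

variable {G : Type*} [Group G]

/-- The elements of order `d`. -/
abbrev OfOrder (G : Type*) [Group G] (d : ℕ) : Type _ := {x : G // orderOf x = d}

/-- Conjugation on the elements of order `d`. -/
abbrev conjAction (Q : Subgroup G) (d : ℕ) : MulAction Q (OfOrder G d) where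
  smul g x := ⟨(g : G) * x.1 * (g : G)⁻¹, by
    have h := MulEquiv.orderOf_eq (MulAut.conj (g : G)) x.1
    rw [MulAut.conj_apply] at h
    rw [h]
    exact x.2⟩
  one_smul x := by
    apply Subtype.ext
    show ((1 : Q) : G) * x.1 * ((1 : Q) : G)⁻¹ = x.1
    simp
  mul_smul g h x := by
    apply Subtype.ext
    show ((g * h : Q) : G) * x.1 * ((g * h : Q) : G)⁻¹ =
      (g : G) * ((h : G) * x.1 * (h : G)⁻¹) * (g : G)⁻¹
    simp [mul_assoc]

attribute [local instance] conjAction

theorem smul_val (Q : Subgroup G) (d : ℕ) (g : Q) (x : OfOrder G d) :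
    (g • x : OfOrder G d).1 = (g : G) * x.1 * (g : G)⁻¹ := rfl

theorem mem_fixed (Q : Subgroup G) (d : ℕ) (x : OfOrder G d) :
    x ∈ MulAction.fixedPoints Q (OfOrder G d) ↔ x.1 ∈ Subgroup.centralizer (Q : Set G) := by
  rw [MulAction.mem_fixedPoints, Subgroup.mem_centralizer_iff]
  constructor
  · intro h g hg
    have h1 := congrArg Subtype.val (h ⟨g, hg⟩)
    rw [smul_val] at h1
    exact mul_inv_eq_iff_eq_mul.1 h1
  · intro h g
    apply Subtype.ext
    rw [smul_val]
    exact mul_inv_eq_iff_eq_mul.2 (h g g.2)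

/-- The number of the elements of order `d`, modulo `p`, is the number of those which commute with
a given `p`-subgroup. -/
theorem card_modEq [Fintype G] [DecidableEq G] (p : ℕ) [Fact p.Prime] (Q : Subgroup G)
    (hQ : IsPGroup p Q) (d : ℕ) [DecidablePred fun x : G => x ∈ Subgroup.centralizer (Q : Set G)] :
    (#{x : G | orderOf x = d} : ZMod p) =
      #{x : G | orderOf x = d ∧ x ∈ Subgroup.centralizer (Q : Set G)} := by
  classical
  have h := hQ.card_modEq_card_fixedPoints (OfOrder G d)
  have h1 : Nat.card (OfOrder G d) = #{x : G | orderOf x = d} := by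
    rw [Nat.card_eq_fintype_card, Fintype.card_subtype]
  have h2 : Nat.card (MulAction.fixedPoints Q (OfOrder G d)) =
      #{x : G | orderOf x = d ∧ x ∈ Subgroup.centralizer (Q : Set G)} := by
    rw [Nat.card_eq_fintype_card, ← Fintype.card_subtype]
    apply Fintype.card_congr
    refine ⟨fun y => ⟨y.1.1, y.1.2, (mem_fixed Q d y.1).1 y.2⟩,
      fun z => ⟨⟨z.1, z.2.1⟩, (mem_fixed Q d ⟨z.1, z.2.1⟩).2 z.2.2⟩, ?_, ?_⟩
    · intro y; rfl
    · intro z; rfl
  rw [h1, h2] at h
  exact (ZMod.natCast_eq_natCast_iff _ _ _).2 h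

/-- The sum of the orders of all the elements, modulo `p`, is the sum of the orders of the elements
which commute with a given `p`-subgroup. -/
theorem sum_modEq [Fintype G] [DecidableEq G] (p : ℕ) [Fact p.Prime] (Q : Subgroup G)
    (hQ : IsPGroup p Q) [DecidablePred fun x : G => x ∈ Subgroup.centralizer (Q : Set G)] :
    ∑ x : G, (orderOf x : ZMod p) =
      ∑ x ∈ {x : G | x ∈ Subgroup.centralizer (Q : Set G)}, (orderOf x : ZMod p) := by
  classical
  rw [← Finset.sum_fiberwise_of_maps_to (s := (univ : Finset G))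
    (t := (univ : Finset G).image orderOf) (g := fun x : G => orderOf x)
    fun x _ => Finset.mem_image_of_mem _ (mem_univ x)]
  rw [← Finset.sum_fiberwise_of_maps_to (s := ({x : G | x ∈ Subgroup.centralizer (Q : Set G)} :
    Finset G)) (t := (univ : Finset G).image orderOf) (g := fun x : G => orderOf x)
    fun x _ => Finset.mem_image_of_mem _ (mem_univ x)]
  refine Finset.sum_congr rfl fun d _ => ?_
  have h1 : ∑ x ∈ (univ : Finset G) with orderOf x = d, (orderOf x : ZMod p) =
      (#{x : G | orderOf x = d} : ZMod p) * d := by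
    rw [Finset.sum_congr rfl (g := fun _ => (d : ZMod p)), Finset.sum_const, nsmul_eq_mul]
    intro x hx
    rw [(Finset.mem_filter.1 hx).2]
  have h2 : ∑ x ∈ ({x : G | x ∈ Subgroup.centralizer (Q : Set G)} : Finset G) with
      orderOf x = d, (orderOf x : ZMod p) =
      (#{x : G | orderOf x = d ∧ x ∈ Subgroup.centralizer (Q : Set G)} : ZMod p) * d := by
    rw [Finset.sum_congr rfl (g := fun _ => (d : ZMod p)), Finset.sum_const, nsmul_eq_mul,
      Finset.filter_filter]
    · congr 3
      ext x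
      simp only [Finset.mem_filter, Finset.mem_univ, true_and]
      exact and_comm
    · intro x hx
      rw [(Finset.mem_filter.1 hx).2]
  rw [h1, h2, card_modEq p Q hQ d]

/-- The sum over the elements of order prime to `p` which commute with a given `p`-subgroup. -/
theorem sum_modEq' [Fintype G] [DecidableEq G] (p : ℕ) [Fact p.Prime] (Q : Subgroup G)
    (hQ : IsPGroup p Q) [DecidablePred fun x : G => x ∈ Subgroup.centralizer (Q : Set G)] :
    ∑ x : G, (orderOf x : ZMod p) =
      ∑ x ∈ {x : G | x ∈ Subgroup.centralizer (Q : Set G) ∧ ¬ p ∣ orderOf x},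
        (orderOf x : ZMod p) := by
  classical
  rw [sum_modEq p Q hQ]
  rw [← Finset.filter_filter, Finset.sum_filter (s := ({x : G | x ∈ Subgroup.centralizer
    (Q : Set G)} : Finset G))]
  refine Finset.sum_congr rfl fun x _ => ?_
  by_cases h : p ∣ orderOf x
  · rw [if_neg (not_not.2 h)]
    exact (ZMod.natCast_eq_zero_iff _ _).2 h
  · rw [if_pos h]

/-- If the average order is an integer, then `|G|` divides the sum of the orders. -/
theorem card_dvd [Finite G] (n : ℤ) (h : avgOrder G = n) : Nat.card G ∣ psi G := by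
  have hc : (Nat.card G : ℚ) ≠ 0 := by
    exact_mod_cast Nat.card_pos.ne'
  unfold avgOrder at h
  rw [div_eq_iff hc] at h
  have h1 : ((psi G : ℕ) : ℤ) = n * (Nat.card G : ℤ) := by
    exact_mod_cast h
  have h2 : ((Nat.card G : ℕ) : ℤ) ∣ ((psi G : ℕ) : ℤ) := by
    rw [h1]
    exact Dvd.intro_left n rfl
  exact_mod_cast h2

/-- A `p`-subgroup of the centralizer of a Sylow `p`-subgroup `P` is in `P`. -/
theorem le_sylow (p : ℕ) [Fact p.Prime] [Finite G] (P : Sylow p G) (S : Subgroup G)
    (hS : IsPGroup p S) (hSC : S ≤ Subgroup.centralizer (P : Set G)) : S ≤ P := by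
  have h1 : S ≤ Subgroup.normalizer (P : Set G) :=
    hSC.trans (Subgroup.centralizer_le_normalizer _)
  have h2 := hS.inf_normalizer_sylow P
  rw [inf_eq_left.2 h1] at h2
  exact inf_eq_left.1 h2.symm

/-- The index of the centre of `C_G(P)` in `C_G(P)` is prime to `p`. -/
theorem not_dvd_index (p : ℕ) [Fact p.Prime] [Finite G] (P : Sylow p G) :
    ¬ p ∣ (Subgroup.center (Subgroup.centralizer (P : Set G))).index := by
  set H := Subgroup.centralizer (P : Set G) with hH
  obtain ⟨S⟩ : Nonempty (Sylow p H) := inferInstance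
  have hS1 : (S : Subgroup H).map H.subtype ≤ P := by
    apply le_sylow p P
    · exact S.isPGroup'.map H.subtype
    · rintro x ⟨y, _, rfl⟩
      exact y.2
  have hS2 : (S : Subgroup H) ≤ Subgroup.center H := by
    intro s hs
    rw [Subgroup.mem_center_iff]
    intro g
    apply Subtype.ext
    have h1 : (s : G) ∈ (P : Set G) := hS1 ⟨s, hs, rfl⟩
    exact ((Subgroup.mem_centralizer_iff.1 g.2) s h1).symm
  intro h
  exact S.not_dvd_index (h.trans (Subgroup.index_dvd_of_le hS2))

/-- In `C_G(P)` the product of two elements of order prime to `p` has order prime to `p`. -/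
theorem not_dvd_mul (p : ℕ) [Fact p.Prime] [Finite G] (P : Sylow p G)
    (a b : Subgroup.centralizer (P : Set G)) (ha : ¬ p ∣ orderOf a) (hb : ¬ p ∣ orderOf b) :
    ¬ p ∣ orderOf (a * b) := by
  have hk := not_dvd_index p P
  set k := (Subgroup.center (Subgroup.centralizer (P : Set G))).index with hkdef
  have hp : p.Prime := Fact.out
  have h1 : (a * b) ^ k = a ^ k * b ^ k := by
    have h2 := map_mul (MonoidHom.transferCenterPow (Subgroup.centralizer (P : Set G))) a b
    have h3 := congrArg Subtype.val h2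
    rw [MonoidHom.transferCenterPow_apply] at h3
    rw [h3]
    rfl
  have hc : Commute (a ^ k) (b ^ k) := by
    have h4 : a ^ k ∈ Subgroup.center (Subgroup.centralizer (P : Set G)) :=
      Subgroup.pow_index_mem _ a
    exact (Subgroup.mem_center_iff.1 h4 (b ^ k)).symm
  have h5 : ¬ p ∣ orderOf ((a * b) ^ k) := by
    intro h
    rw [h1] at h
    have h6 : p ∣ orderOf a * orderOf b :=
      (h.trans hc.orderOf_mul_dvd_mul_orderOf).trans
        (mul_dvd_mul (orderOf_pow_dvd k) (orderOf_pow_dvd k))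
    rcases hp.dvd_mul.1 h6 with h7 | h7
    · exact ha h7
    · exact hb h7
  intro h
  have h8 : orderOf ((a * b) ^ k) * Nat.gcd (orderOf (a * b)) k = orderOf (a * b) := by
    rw [orderOf_pow]
    exact Nat.div_mul_cancel (Nat.gcd_dvd_left _ _)
  rw [← h8] at h
  rcases hp.dvd_mul.1 h with h9 | h9
  · exact h5 h9
  · exact hk (h9.trans (Nat.gcd_dvd_right _ _))

/-- The subgroup of the elements of order prime to `p` of `C_G(P)`. -/
def pPrimePart (p : ℕ) [hp : Fact p.Prime] [Finite G] (P : Sylow p G) : Subgroup G where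
  carrier := {x | x ∈ Subgroup.centralizer (P : Set G) ∧ ¬ p ∣ orderOf x}
  mul_mem' := by
    rintro x y ⟨hx, hx'⟩ ⟨hy, hy'⟩
    refine ⟨mul_mem hx hy, ?_⟩
    have h := not_dvd_mul p P ⟨x, hx⟩ ⟨y, hy⟩ (by rwa [Subgroup.orderOf_mk])
      (by rwa [Subgroup.orderOf_mk])
    rwa [← Subgroup.orderOf_coe] at h
  one_mem' := by
    refine ⟨one_mem _, ?_⟩
    rw [orderOf_one]
    exact hp.out.one_lt.not_ge ∘ Nat.le_of_dvd one_pos
  inv_mem' := by
    rintro x ⟨hx, hx'⟩
    exact ⟨inv_mem hx, by rwa [orderOf_inv]⟩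

theorem psi_eq_sum [Fintype G] : psi G = ∑ x : G, orderOf x :=
  finsum_eq_sum_of_fintype _

/-- `p` divides the sum of the orders of the elements of order prime to `p` of `C_G(Q)`. -/
theorem dvd_sum [Finite G] (p : ℕ) [Fact p.Prime] (hd : p ∣ psi G) (Q : Subgroup G)
    (hQ : IsPGroup p Q) :
    p ∣ ∑ᶠ x ∈ {x : G | x ∈ Subgroup.centralizer (Q : Set G) ∧ ¬ p ∣ orderOf x}, orderOf x := by
  classical
  have := Fintype.ofFinite G
  have h := sum_modEq' p Q hQ
  rw [← Nat.cast_sum, ← Nat.cast_sum, ← psi_eq_sum, (ZMod.natCast_eq_zero_iff _ _).2 hd] at h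
  have h1 := (ZMod.natCast_eq_zero_iff _ _).1 h.symm
  have h2 : ∑ᶠ x ∈ {x : G | x ∈ Subgroup.centralizer (Q : Set G) ∧ ¬ p ∣ orderOf x}, orderOf x =
      ∑ x ∈ {x : G | x ∈ Subgroup.centralizer (Q : Set G) ∧ ¬ p ∣ orderOf x}, orderOf x := by
    rw [finsum_mem_eq_sum_of_inter_support_eq]
    ext x
    simp
  rw [h2]
  exact h1

/-- The sum of the orders is at most `m ^ 2 - m + 1`. -/
theorem psi_le (K : Type*) [Group K] [Finite K] : psi K + Nat.card K ≤ Nat.card K ^ 2 + 1 := by
  classical
  have := Fintype.ofFinite K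
  rw [psi_eq_sum, ← Finset.add_sum_erase univ _ (mem_univ (1 : K)), orderOf_one]
  have h1 : ∑ x ∈ univ.erase (1 : K), orderOf x ≤ (Nat.card K - 1) * Nat.card K := by
    have h2 := Finset.sum_le_card_nsmul (univ.erase (1 : K)) orderOf (Nat.card K)
      (fun x _ => orderOf_le_card)
    rwa [Finset.card_erase_of_mem (mem_univ _), Finset.card_univ, ← Nat.card_eq_fintype_card,
      smul_eq_mul] at h2
  have h3 : 0 < Nat.card K := Nat.card_pos
  obtain ⟨c, hc⟩ : ∃ c, Nat.card K = c + 1 := ⟨Nat.card K - 1, by omega⟩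
  rw [hc] at h1 ⊢
  simp only [Nat.add_sub_cancel] at h1
  nlinarith

/-- A natural number, all the prime divisors of which are `1` mod `d`, is `1` mod `d`. -/
theorem modEq_one (d : ℕ) : ∀ c : ℕ, c ≠ 0 → (∀ q : ℕ, q.Prime → q ∣ c → q ≡ 1 [MOD d]) →
    c ≡ 1 [MOD d] := by
  intro c
  induction c using Nat.recOnMul with
  | zero => intro h; exact absurd rfl h
  | one => intro _ _; rfl
  | prime p hp => intro _ h; exact h p hp dvd_rfl
  | mul a b iha ihb =>
    intro h0 h
    have h1 := iha (left_ne_zero_of_mul h0) fun p hp hpa => h p hp (hpa.mul_right b)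
    have h2 := ihb (right_ne_zero_of_mul h0) fun p hp hpb => h p hp (hpb.mul_left a)
    exact h1.mul h2

/-- If `p` divides the sum of the orders of a finite group `K`, then some prime divisor of `|K|` is
not `1` modulo `p`. -/
theorem exists_prime_not_modEq (K : Type*) [Group K] [Finite K] (p : ℕ) (hp : p.Prime)
    (h : p ∣ psi K) : ∃ q : ℕ, q.Prime ∧ q ∣ Nat.card K ∧ ¬ q ≡ 1 [MOD p] := by
  classical
  have := Fintype.ofFinite K
  by_contra hcon
  have hall : ∀ q : ℕ, q.Prime → q ∣ Nat.card K → q ≡ 1 [MOD p] := by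
    intro q hq hqK
    by_contra h1
    exact hcon ⟨q, hq, hqK, h1⟩
  have h1 : ∀ x : K, ((orderOf x : ℕ) : ZMod p) = 1 := by
    intro x
    have h2 : orderOf x ≡ 1 [MOD p] :=
      modEq_one p _ (orderOf_pos x).ne' fun q hq hqx => hall q hq (hqx.trans (orderOf_dvd_natCard x))
    have h3 := (ZMod.natCast_eq_natCast_iff _ _ _).2 h2
    rwa [Nat.cast_one] at h3
  have h4 : ((psi K : ℕ) : ZMod p) = ((Nat.card K : ℕ) : ZMod p) := by
    rw [psi_eq_sum, Nat.cast_sum, Finset.sum_congr rfl fun x _ => h1 x, Finset.sum_const,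
      Finset.card_univ, ← Nat.card_eq_fintype_card, nsmul_eq_mul, mul_one]
  have h5 : ((Nat.card K : ℕ) : ZMod p) = 1 := by
    have h2 : Nat.card K ≡ 1 [MOD p] := modEq_one p _ Nat.card_pos.ne' hall
    have h3 := (ZMod.natCast_eq_natCast_iff _ _ _).2 h2
    rwa [Nat.cast_one] at h3
  have h6 : ((psi K : ℕ) : ZMod p) = 0 := (ZMod.natCast_eq_zero_iff _ _).2 h
  have : Fact p.Prime := ⟨hp⟩
  rw [h6, h5] at h4
  exact zero_ne_one h4

/-- **Integer average orders and centralizers of Sylow subgroups.** Let `G` be a finite group, the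
average order `o(G)` of the elements of which is an integer, and let `p` be a prime divisor of
`|G|`.
(1) If `Q` is a `p`-subgroup, `p` divides the sum of the orders of those elements of order prime to
`p` which commute with `Q`.
(2) If `P` is a Sylow `p`-subgroup, then the elements of order prime to `p` which commute with `P`
form a subgroup `O`; `p` divides `ψ(O)`; its order `m` divides the `p'`-part of `|G|`;
`p ≤ m ^ 2 - m + 1`; and there is a prime `q ≠ p`, `q ≢ 1 (mod p)`, such that `O` has an element of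
order `q`, and `G` has an element of order `p q`. -/
theorem result (G : Type*) [Group G] [Finite G] (n : ℤ) (hn : avgOrder G = n)
    (p : ℕ) [Fact p.Prime] (hp : p ∣ Nat.card G) :
    (∀ Q : Subgroup G, IsPGroup p Q →
      p ∣ ∑ᶠ x ∈ {x : G | x ∈ Subgroup.centralizer (Q : Set G) ∧ ¬ p ∣ orderOf x}, orderOf x) ∧
    ∀ P : Sylow p G, ∃ O : Subgroup G,
      (∀ x : G, x ∈ O ↔ x ∈ Subgroup.centralizer (P : Set G) ∧ ¬ p ∣ orderOf x) ∧
      p ∣ psi O ∧
      Nat.card O ∣ ordCompl[p] (Nat.card G) ∧
      p + Nat.card O ≤ Nat.card O ^ 2 + 1 ∧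
      ∃ q : ℕ, q.Prime ∧ q ≠ p ∧ ¬ q ≡ 1 [MOD p] ∧ (∃ x ∈ O, orderOf x = q) ∧
        ∃ z : G, orderOf z = p * q := by
  classical
  have hpp : p.Prime := Fact.out
  have hd : p ∣ psi G := hp.trans (card_dvd n hn)
  refine ⟨fun Q hQ => dvd_sum p hd Q hQ, fun P => ?_⟩
  have hmem : ∀ x : G, x ∈ pPrimePart p P ↔
      x ∈ Subgroup.centralizer (P : Set G) ∧ ¬ p ∣ orderOf x := fun x => Iff.rfl
  have hdvd : p ∣ psi (pPrimePart p P) := by
    have h := dvd_sum p hd P P.isPGroup'
    have h1 : psi (pPrimePart p P) =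
        ∑ᶠ x ∈ {x : G | x ∈ Subgroup.centralizer (P : Set G) ∧ ¬ p ∣ orderOf x}, orderOf x := by
      have h2 := finsum_set_coe_eq_finsum_mem (f := fun x : G => orderOf x)
        {x : G | x ∈ Subgroup.centralizer (P : Set G) ∧ ¬ p ∣ orderOf x}
      rw [← h2]
      unfold psi
      exact finsum_congr fun x => (Subgroup.orderOf_coe x).symm
    rw [h1]
    exact h
  have hnd : ¬ p ∣ Nat.card (pPrimePart p P) := by
    intro h
    obtain ⟨x, hx⟩ := exists_prime_orderOf_dvd_card' p h
    have h2 := x.2.2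
    rw [Subgroup.orderOf_coe, hx] at h2
    exact h2 dvd_rfl
  have hfi : Fintype (pPrimePart p P) := Fintype.ofFinite _
  have hpos : 0 < psi (pPrimePart p P) := by
    rw [psi_eq_sum]
    exact Finset.sum_pos (fun x _ => orderOf_pos x) ⟨1, mem_univ _⟩
  refine ⟨pPrimePart p P, hmem, hdvd, ?_, ?_, ?_⟩
  · have h1 : Nat.card (pPrimePart p P) ∣ Nat.card G := Subgroup.card_subgroup_dvd_card _
    rw [← Nat.ordProj_mul_ordCompl_eq_self (Nat.card G) p] at h1
    refine Nat.Coprime.dvd_of_dvd_mul_left ?_ h1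
    exact Nat.Coprime.pow_right _ ((Nat.Prime.coprime_iff_not_dvd hpp).2 hnd).symm
  · have h1 := psi_le (pPrimePart p P)
    have h2 := Nat.le_of_dvd hpos hdvd
    omega
  · obtain ⟨q, hq, hqO, hq1⟩ := exists_prime_not_modEq (pPrimePart p P) p hpp hdvd
    have : Fact q.Prime := ⟨hq⟩
    obtain ⟨x, hx⟩ := exists_prime_orderOf_dvd_card' q hqO
    have hqp : q ≠ p := by
      rintro rfl
      exact hnd hqO
    refine ⟨q, hq, hqp, hq1, ⟨(x : G), x.2, ?_⟩, ?_⟩
    · rw [Subgroup.orderOf_coe, hx]
    · have hpP : p ∣ Nat.card P := by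
        rw [P.card_eq_multiplicity]
        exact dvd_pow_self p (hpp.factorization_pos_of_dvd Nat.card_pos.ne' hp).ne'
      obtain ⟨y, hy⟩ := exists_prime_orderOf_dvd_card' p hpP
      refine ⟨(y : G) * (x : G), ?_⟩
      have hc : Commute (y : G) (x : G) := Subgroup.mem_centralizer_iff.1 x.2.1 y y.2
      rw [hc.orderOf_mul_eq_mul_orderOf_of_coprime]
      · rw [Subgroup.orderOf_coe, Subgroup.orderOf_coe, hx, hy]
      · rw [Subgroup.orderOf_coe, Subgroup.orderOf_coe, hx, hy]
        exact (Nat.coprime_primes hpp hq).2 hqp.symm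

end Pool.Agent.Results.MP_3da00f_al.SylowCentralizer
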